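import Pool.Agent.R249.Sp.Hilb

/-!
# A singular spectral pair with exactly two complete numbers

There is a set `Λ` of integers such that `(μ₄, Λ)` is a (singular) spectral pair whose complete
numbers are exactly `1` and `-1`; here `μ₄` is the self-similar probability measure for the maps
`x ↦ x / 4`, `x ↦ (x + 2) / 4` with equal weights.
-/

set_option autoImplicit false

open MeasureTheory Set
open scoped ENNReal InnerProductSpace

namespace Pool.Agent.Results.MP_90e10c_an.TwoComplete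

/-- The exponential `e_l(x) = e^{-2π i l x}`. -/
noncomputable def e (l x : ℝ) : ℂ := Complex.exp (-(2 * Real.pi * Complex.I * l * x))

/-- The family `v` is an orthonormal (Hilbert) basis of the Hilbert space `H`. -/
def IsOrthonormalBasis {ι H : Type} [NormedAddCommGroup H] [InnerProductSpace ℂ H]
    (v : ι → H) : Prop :=
  ∃ b : HilbertBasis ι ℂ H, ∀ i, b i = v i

/-- `(μ, Λ)` is a spectral pair: `μ` is a Borel probability measure on `ℝ` with compact support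
(carried by a compact set), `Λ` is countable and `(e_l)`, `l ∈ Λ`, is an orthonormal basis of
`L²(μ)`. -/
def IsSpectralPair (μ : Measure ℝ) (Λ : Set ℝ) : Prop :=
  IsProbabilityMeasure μ ∧ (∃ K : Set ℝ, IsCompact K ∧ μ Kᶜ = 0) ∧ Λ.Countable ∧
    ∃ v : Λ → Lp ℂ 2 μ, (∀ l : Λ, v l =ᵐ[μ] e l) ∧ IsOrthonormalBasis v

/-- The complete numbers of `(μ, Λ)`: the real numbers `t` such that `(μ, tΛ)` is a spectral
pair. -/
def completeNumbers (μ : Measure ℝ) (Λ : Set ℝ) : Set ℝ :=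
  {t | IsSpectralPair μ ((fun l => t * l) '' Λ)}

/-- `μ` is a finite sum of point masses with equal weights. -/
def IsEqualWeightAtomic (μ : Measure ℝ) : Prop :=
  ∃ (s : Finset ℝ) (c : ℝ≥0∞), μ = ∑ x ∈ s, c • Measure.dirac x

/-- `(μ, Λ)` is a singular spectral pair: it is a spectral pair, `μ` is singular with respect to
Lebesgue measure and is not a finite sum of point masses with equal weights. -/
def IsSingularSpectralPair (μ : Measure ℝ) (Λ : Set ℝ) : Prop :=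
  IsSpectralPair μ Λ ∧ μ ⟂ₘ volume ∧ ¬ IsEqualWeightAtomic μ

/-- `μ` satisfies the self-similarity of `μ₄`: equal weights, the maps `x ↦ x / 4` and
`x ↦ (x + 2) / 4`. -/
def IsSelfSimilar4 (μ : Measure ℝ) : Prop :=
  μ = (2⁻¹ : ℝ≥0∞) • μ.map (fun x => x / 4) + (2⁻¹ : ℝ≥0∞) • μ.map (fun x => (x + 2) / 4)

open Pool.Agent.R249.Sp

lemma e_eq : e = ee := rfl

lemma spectral_of {Λ : Set ℝ} (hc : Λ.Countable)
    (hd : ∀ a ∈ Λ, ∀ b ∈ Λ, a ≠ b → F (a - b) = 0)
    (hs : ∀ ξ : ℝ, 1 ≤ ∑' l : Λ, ENNReal.ofReal (M (ξ - l))) : IsSpectralPair mu4 Λ := by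
  refine ⟨inferInstance, ⟨Icc 0 (2 / 3), isCompact_Icc, mu4_compl⟩, hc, fun l => ev l,
    fun l => ev_ae l, ?_⟩
  have hv : Orthonormal ℂ (fun l : Λ => ev l) := by
    refine ⟨fun l => norm_ev _, fun a b hab => ?_⟩
    change ⟪ev a, ev b⟫_ℂ = 0
    rw [inner_ev]
    exact hd a a.2 b b.2 fun h => hab (Subtype.ext h)
  have hbot := orth_eq_bot hv (range ev) ?_ ?_
  · exact ⟨HilbertBasis.mkOfOrthogonalEqBot hv hbot, fun l => by
      rw [HilbertBasis.coe_mkOfOrthogonalEqBot]⟩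
  · intro y hy
    refine total y fun ξ => ?_
    rw [← inner_conj_symm, hy _ ⟨ξ, rfl⟩, map_zero]
  · rintro _ ⟨ξ, rfl⟩
    rw [norm_ev, one_pow, ENNReal.ofReal_one]
    refine (hs ξ).trans (le_of_eq ?_)
    refine tsum_congr fun l => ?_
    rw [inner_ev]
    change _ = ENNReal.ofReal (M (l - ξ))
    rw [← M_neg, neg_sub]

lemma orth_of {Λ : Set ℝ} (h : IsSpectralPair mu4 Λ) {a b : ℝ} (ha : a ∈ Λ) (hb : b ∈ Λ)
    (hab : a ≠ b) : F (a - b) = 0 := by
  obtain ⟨-, -, -, v, hv, B, hB⟩ := h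
  have hv' : ∀ l : Λ, v l = ev l := fun l => Lp.ext ((hv l).trans (ev_ae l).symm)
  have h1 : ⟪B ⟨a, ha⟩, B ⟨b, hb⟩⟫_ℂ = 0 :=
    B.orthonormal.2 (i := ⟨a, ha⟩) (j := ⟨b, hb⟩) (fun h => hab (by simpa using h))
  rw [hB, hB, hv', hv', inner_ev] at h1
  exact h1

lemma not_of {Λ : Set ℝ} (z : ℝ) (hz : ∀ l ∈ Λ, F (z - l) = 0) : ¬ IsSpectralPair mu4 Λ := by
  rintro ⟨-, -, -, v, hv, B, hB⟩
  have hv' : ∀ l : Λ, v l = ev l := fun l => Lp.ext ((hv l).trans (ev_ae l).symm)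
  have h1 : B.repr (ev z) = 0 := by
    ext l
    rw [HilbertBasis.repr_apply_apply, hB, hv', ← inner_conj_symm, inner_ev, hz _ l.2, map_zero]
    rfl
  have h2 : ev z = 0 := by
    rw [← B.repr.map_eq_zero_iff]
    exact h1
  have h3 := norm_ev z
  rw [h2, norm_zero] at h3
  norm_num at h3

lemma image_eq (t : ℝ) : (fun l : ℝ => t * l) '' ((fun z : ℤ => (z : ℝ)) '' Lam) =
    (fun z : ℤ => t * (z : ℝ)) '' Lam := by
  rw [Set.image_image]

lemma Lam_diff {a b : ℤ} (ha : a ∈ Lam) (hb : b ∈ Lam) (hab : a ≠ b) : Z4 (a - b) :=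
  A_diff (v := .main 0) trivial ha hb hab

lemma spectral_pm {s : ℝ} (hs : s = 1 ∨ s = -1) :
    IsSpectralPair mu4 ((fun z : ℤ => s * (z : ℝ)) '' Lam) := by
  have hs0 : s ≠ 0 := by rcases hs with h | h <;> rw [h] <;> norm_num
  have hinj : Function.Injective fun z : ℤ => s * (z : ℝ) := by
    intro a b hab
    have := mul_left_cancel₀ hs0 hab
    exact_mod_cast this
  refine spectral_of ((Set.to_countable Lam).image _) ?_ ?_
  · rintro _ ⟨a, ha, rfl⟩ _ ⟨b, hb, rfl⟩ hab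
    have hab' : a ≠ b := fun h => hab (by rw [h])
    have h1 := Lam_diff ha hb hab'
    simp only
    rcases hs with rfl | rfl
    · have : (1 : ℝ) * a - 1 * b = ((a - b : ℤ) : ℝ) := by push_cast; ring
      rw [this]
      exact F_Z4 h1
    · have : (-1 : ℝ) * a - -1 * b = ((-(a - b) : ℤ) : ℝ) := by push_cast; ring
      rw [this]
      exact F_Z4 (Z4_neg h1)
  · intro ξ
    have h1 : ∑' l : ((fun z : ℤ => s * (z : ℝ)) '' Lam : Set ℝ), ENNReal.ofReal (M (ξ - l)) =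
        ∑' z : Lam, ENNReal.ofReal (M (ξ - s * ((z : ℤ) : ℝ))) :=
      tsum_image (fun l : ℝ => ENNReal.ofReal (M (ξ - l))) hinj.injOn
    rw [h1]
    rcases hs with rfl | rfl
    · refine (one_le_Q (-ξ)).trans (le_of_eq (tsum_congr fun z => ?_))
      rw [← M_neg]
      congr 2
      ring
    · refine (one_le_Q ξ).trans (le_of_eq (tsum_congr fun z => ?_))
      congr 2
      ring

lemma not_spectral {t : ℝ} (h1 : t ≠ 1) (h2 : t ≠ -1) :
    ¬ IsSpectralPair mu4 ((fun z : ℤ => t * (z : ℝ)) '' Lam) := by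
  intro hsp
  have m0 : (0 : ℤ) ∈ Lam := Mem.zero _
  have m1 : (1 : ℤ) ∈ Lam := by
    exact Mem.right (.main 0) 0 (Mem.zero _)
  by_cases ht0 : t = 0
  · refine not_of 1 ?_ hsp
    rintro _ ⟨z, hz, rfl⟩
    have : (1 : ℝ) - t * z = ((1 : ℤ) : ℝ) := by rw [ht0]; push_cast; ring
    simp only
    rw [this]
    exact F_odd odd_one
  have h3 : F (t * ((1 : ℤ) : ℝ) - t * ((0 : ℤ) : ℝ)) = 0 := by
    refine orth_of hsp ⟨1, m1, rfl⟩ ⟨0, m0, rfl⟩ ?_
    push_cast
    simpa using ht0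
  have h4 : t * ((1 : ℤ) : ℝ) - t * ((0 : ℤ) : ℝ) = t := by push_cast; ring
  rw [h4] at h3
  obtain ⟨τ, hτ, rfl⟩ := exists_Z4_of_zero h3
  obtain ⟨k, m, hm, hk⟩ := hτ
  rcases Nat.eq_zero_or_pos k with rfl | hkpos
  · rw [pow_zero, one_mul] at hk
    subst hk
    have hm1 : τ ≠ 1 := by rintro rfl; exact h1 (by norm_num)
    have hm2 : τ ≠ -1 := by rintro rfl; exact h2 (by norm_num)
    obtain ⟨n, hn⟩ := hm
    rcases lt_or_ge 0 n with hpos | hneg
    · obtain ⟨j, hj⟩ : ∃ j : ℕ, n = j + 1 := ⟨(n - 1).toNat, by omega⟩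
      refine not_of ((4 ^ j * ((2 * j + 3) + 4) : ℤ) : ℝ) ?_ hsp
      rintro _ ⟨z, hz, rfl⟩
      have hx : Extra (.main 0) z := extra hz
      have hx2 := hx j (Nat.zero_le j)
      rw [Nat.sub_zero] at hx2
      have e1 : ((4 ^ j * ((2 * j + 3) + 4) : ℤ) : ℝ) - (τ : ℝ) * z =
          ((4 ^ j * ((2 * j + 3) + 4) - (2 * j + 3) * z : ℤ) : ℝ) := by
        rw [hn, hj]
        push_cast
        ring
      simp only
      rw [e1]
      exact F_Z4 hx2
    · obtain ⟨j, hj⟩ : ∃ j : ℕ, n = -(j : ℤ) - 2 := ⟨(-n - 2).toNat, by omega⟩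
      refine not_of ((-(4 ^ j * ((2 * j + 3) + 4)) : ℤ) : ℝ) ?_ hsp
      rintro _ ⟨z, hz, rfl⟩
      have hx : Extra (.main 0) z := extra hz
      have hx2 := hx j (Nat.zero_le j)
      rw [Nat.sub_zero] at hx2
      have e1 : ((-(4 ^ j * ((2 * j + 3) + 4)) : ℤ) : ℝ) - (τ : ℝ) * z =
          ((-(4 ^ j * ((2 * j + 3) + 4) - (2 * j + 3) * z) : ℤ) : ℝ) := by
        rw [hn, hj]
        push_cast
        ring
      simp only
      rw [e1]
      exact F_Z4 (Z4_neg hx2)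
  · refine not_of ((1 : ℤ) : ℝ) ?_ hsp
    rintro _ ⟨z, hz, rfl⟩
    have e1 : ((1 : ℤ) : ℝ) - (τ : ℝ) * z = ((1 - τ * z : ℤ) : ℝ) := by push_cast; ring
    simp only
    rw [e1]
    apply F_odd
    obtain ⟨k', rfl⟩ : ∃ k', k = k' + 1 := ⟨k - 1, by omega⟩
    refine ⟨-(2 * 4 ^ k' * m * z), ?_⟩
    rw [hk]
    ring

lemma not_atomic : ¬ IsEqualWeightAtomic mu4 := by
  rintro ⟨s, c, h⟩
  have h1 : mu4 (s : Set ℝ) = 0 := by
    rw [← Set.biUnion_of_singleton (s : Set ℝ)]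
    exact (measure_biUnion_null_iff s.countable_toSet).mpr fun x _ => mu4_singleton x
  have h2 : mu4 (s : Set ℝ)ᶜ = 0 := by
    rw [h, Measure.finsetSum_apply]
    refine Finset.sum_eq_zero fun x hx => ?_
    rw [Measure.smul_apply, Measure.dirac_apply' _ s.measurableSet.compl]
    simp [hx]
  have h3 : mu4 univ ≤ 0 := by
    rw [← union_compl_self (s : Set ℝ)]
    refine (measure_union_le _ _).trans ?_
    rw [h1, h2, add_zero]
  rw [measure_univ] at h3
  exact absurd h3 (by norm_num)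

/-- There is a singular spectral pair `(μ, Λ)` in `ℝ` (`μ` the self-similar measure `μ₄`, `Λ` a set
of integers) whose set of complete numbers is `{1, -1}`; in particular it is finite. -/
theorem result : ∃ (μ : Measure ℝ) (Λ : Set ℝ), IsSingularSpectralPair μ Λ ∧ IsSelfSimilar4 μ ∧
    (∀ l ∈ Λ, ∃ n : ℤ, l = n) ∧ completeNumbers μ Λ = {1, -1} := by
  refine ⟨mu4, (fun z : ℤ => (z : ℝ)) '' Lam, ⟨?_, mu4_singular, not_atomic⟩, mu4_eq, ?_, ?_⟩
  · have h := spectral_pm (s := 1) (Or.inl rfl)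
    have e1 : (fun z : ℤ => (1 : ℝ) * (z : ℝ)) '' Lam = (fun z : ℤ => (z : ℝ)) '' Lam := by
      simp only [one_mul]
    rwa [e1] at h
  · rintro _ ⟨z, -, rfl⟩
    exact ⟨z, rfl⟩
  · ext t
    simp only [completeNumbers, Set.mem_ofPred_eq, Set.mem_insert_iff, Set.mem_singleton_iff]
    rw [image_eq]
    constructor
    · intro h
      by_contra hcon
      push Not at hcon
      exact not_spectral hcon.1 hcon.2 h
    · intro h
      exact spectral_pm h

end Pool.Agent.Results.MP_90e10c_an.TwoComplete
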